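import Mathlib
import Pool.Agent.H33.Spl6

namespace Pool.Agent.Results.MP_e02861_gt.ImageGulko

open Pool.Agent.H33 Pool.Agent.H33.SplDefs

/-- Continuous images of compacta splittable over Gul'ko compacta are splittable over them. -/
theorem result (X : Type) [TopologicalSpace X] [CompactSpace X] [T2Space X]
    (hX : SplitsOverGulko X) (Z : Type) [TopologicalSpace Z] [T2Space Z] (g : X → Z)
    (hg : Continuous g) (hs : Function.Surjective g) : SplitsOverGulko Z := fun _ =>
  ⟨Z, inferInstance, ⟨hs.compactSpace hg, inferInstance,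
    Spl6.def_of_nw (Spl5.LS.nw (Spl5.gu_image (Spl6.gu_of_splits hX) hg hs))⟩,
    id, continuous_id, by simp⟩

end Pool.Agent.Results.MP_e02861_gt.ImageGulko
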